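import Pool.Agent.Helper48.KV.GoalsG1
import Pool.Agent.Helper5.KV.WGN

/-!
# Packet KV-HCOER (MP_66be51_an): coercivity of the right functional
-/

open MeasureTheory Set Filter Topology

noncomputable section

namespace Pool.Agent.Helper23.KV

open Pool.Agent.Helper33.KV Pool.Agent.Helper41.KV Pool.Agent.Helper48.KV

/-- `|v^4 - q^4| ≤ |v - q| (|v|+q)^3` -/
theorem pow4_sub (v q : ℝ) (hq : 0 ≤ q) : |v ^ 4 - q ^ 4| ≤ |v - q| * (|v| + q) ^ 3 := by
  have h1 : v ^ 4 - q ^ 4 = (v - q) * ((v + q) * (v ^ 2 + q ^ 2)) := by ring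
  rw [h1, abs_mul]
  refine mul_le_mul_of_nonneg_left ?_ (abs_nonneg _)
  rw [abs_mul, abs_of_nonneg (by positivity : 0 ≤ v ^ 2 + q ^ 2)]
  have h2 : |v + q| ≤ |v| + q := by
    have := abs_add_le v q
    rwa [abs_of_nonneg hq] at this
  have h3 : v ^ 2 + q ^ 2 ≤ (|v| + q) ^ 2 := by
    have : v ^ 2 = |v| ^ 2 := (sq_abs v).symm
    rw [this]
    nlinarith [abs_nonneg v]
  calc |v + q| * (v ^ 2 + q ^ 2) ≤ (|v| + q) * (|v| + q) ^ 2 :=
        mul_le_mul h2 h3 (by positivity) (by positivity)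
    _ = (|v| + q) ^ 3 := by ring

theorem cube_add (a b : ℝ) (ha : 0 ≤ a) (hb : 0 ≤ b) : (a + b) ^ 3 ≤ 4 * (a ^ 3 + b ^ 3) := by
  nlinarith [mul_nonneg (add_nonneg ha hb) (sq_nonneg (a - b))]

theorem cube_split (x δ : ℝ) (hx : 0 ≤ x) (hδ : 0 < δ) : x ^ 3 ≤ δ * x ^ 2 + (δ ^ 3)⁻¹ * x ^ 6 := by
  rcases le_total x δ with h | h
  · have h1 : x ^ 3 ≤ δ * x ^ 2 := by
      calc x ^ 3 = x * x ^ 2 := by ring
        _ ≤ δ * x ^ 2 := mul_le_mul_of_nonneg_right h (sq_nonneg _)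
    have : 0 ≤ (δ ^ 3)⁻¹ * x ^ 6 := by positivity
    linarith
  · have h1 : δ ^ 3 ≤ x ^ 3 := pow_le_pow_left₀ hδ.le h 3
    have h2 : x ^ 3 ≤ (δ ^ 3)⁻¹ * x ^ 6 := by
      rw [inv_mul_eq_div, le_div_iff₀ (by positivity)]
      calc x ^ 3 * δ ^ 3 ≤ x ^ 3 * x ^ 3 := mul_le_mul_of_nonneg_left h1 (by positivity)
        _ = x ^ 6 := by ring
    have : 0 ≤ δ * x ^ 2 := by positivity
    linarith

/-- an `H^∞` function is bounded -/
theorem HI_bdd {ε : ℝ → ℝ} (h : HI ε) : ∃ B : ℝ, ∀ y, ε y ^ 2 ≤ B := by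
  have hd : ∀ x, HasDerivAt ε (deriv ε x) x := fun x =>
    ((h.1.differentiable (by simp)) x).hasDerivAt
  have m0 : MemLp ε 2 := by simpa using h.2 0
  have m1 : MemLp (deriv ε) 2 := by simpa [iteratedDeriv_one] using h.2 1
  have i0 : Integrable (fun y => ε y ^ 2) := m0.integrable_sq
  have i01 : Integrable (fun y => ε y * deriv ε y) := m0.integrable_mul m1
  refine ⟨∫ x, |2 * (ε x * deriv ε x)|, fun y => ?_⟩
  refine Pool.Agent.Helper5.KV.sup_bound (g := fun y => ε y ^ 2)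
    (g' := fun x => 2 * (ε x * deriv ε x)) (fun x => ?_) i0 (i01.const_mul 2) y
  exact ((hd x).fun_pow 2).congr_deriv (by push_cast; ring)

theorem hcoer (h1 : S_WT0) (h2 : S_ALG) (h3 : S_WCOERC) (h4 : S_WGN) (h5 : S_QF) : S_HCOER := by
  intro K hK CV hCV
  obtain ⟨r0, hr0, hco⟩ := h3 K hK
  obtain ⟨Qs, Qpos, -, -, -, -, Qdec, -⟩ := h5
  obtain ⟨C0, hC0⟩ := Qdec 0
  have hC0' : ∀ y, Q y ≤ C0 * Real.exp (-|y|) := fun y => by
    have := hC0 y
    rw [iteratedDeriv_zero, abs_of_pos (Qpos y)] at this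
    exact this
  have hC0p : 0 < C0 := by
    have := hC0' 0
    have h := Qpos 0
    simp at this
    linarith
  -- constants
  set C1 : ℝ := CV + C0 with hC1
  have hC1p : 0 < C1 := by linarith
  set C2 : ℝ := 4 * C1 ^ 3 * (CV + 2 * C1) with hC2
  have hC2p : 0 < C2 := by positivity
  set δ : ℝ := 1 / (256 * (160 * CV ^ 3)) with hδ
  have hδp : 0 < δ := by positivity
  set A : ℝ := 160 * CV ^ 3 * (δ ^ 3)⁻¹ + 20 with hA
  have hAp : 0 < A := by positivity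
  refine ⟨min 1 (min r0 (1 / (1280 * C2))), min 1 (1 / (256 * (8 * A))),
    by positivity, min_le_left _ _, by positivity, min_le_left _ _, ?_⟩
  intro ρ hρ hρ0 v ε hv hε hvb hvQ hM ho1 ho2
  have hρ1 : ρ ≤ 1 := hρ0.trans (min_le_left _ _)
  have hρr : ρ ≤ r0 := hρ0.trans ((min_le_right _ _).trans (min_le_left _ _))
  have hρC : 5 * C2 * ρ ≤ 1 / 256 := by
    have h : ρ ≤ 1 / (1280 * C2) := hρ0.trans ((min_le_right _ _).trans (min_le_right _ _))
    rw [le_div_iff₀ (by positivity)] at h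
    linarith
  have hKp : 0 < K := by linarith
  obtain ⟨W1, -, Wpos, -, Wd, -, -, Wb, -⟩ := h1 K ρ hKp hρ
  -- the function
  have es : ContDiff ℝ (⊤ : ℕ∞) ε := hε.1
  have m0 : MemLp ε 2 := by simpa using hε.2 0
  have m1 : MemLp (deriv ε) 2 := by simpa [iteratedDeriv_one] using hε.2 1
  have m2 : MemLp (deriv (deriv ε)) 2 := by
    have := hε.2 2
    rwa [iteratedDeriv_succ, iteratedDeriv_one] at this
  have e1 : ContDiff ℝ 1 ε := es.of_le (by exact_mod_cast le_top)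
  have e2 : ContDiff ℝ 2 ε := contDiff_infty.1 es 2
  have ec : Continuous ε := es.continuous
  have Wc : Continuous (wt K ρ) := W1.continuous
  have Qc : Continuous Q := Qs.continuous
  have hcoer := hco ρ hρ hρr ε e1 m0 m1 ho1 ho2
  have hw1 : ∀ y, |deriv (wt K ρ) y| ≤ wt K ρ y := fun y => by
    rw [(Wd y).deriv, abs_of_pos (Wb y).1]
    refine (Wb y).2.1.trans (div_le_self (Wpos y).1.le (by linarith))
  have hgn := (h4 (wt K ρ) 1 (W1.of_le (by exact_mod_cast le_top)) (fun y => (Wpos y).1)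
    (fun y => (Wpos y).2.le) hw1 ε e2 m0 m1 m2).2.1
  -- integrability
  obtain ⟨B, hB⟩ := HI_bdd hε
  have hB0 : 0 ≤ B := (sq_nonneg _).trans (hB 0)
  have i0 : Integrable (fun y => ε y ^ 2) := m0.integrable_sq
  have i1 : Integrable (fun y => deriv ε y ^ 2) := m1.integrable_sq
  have hbw : ∀ y, |wt K ρ y| ≤ 1 := fun y => by rw [abs_of_pos (Wpos y).1]; exact (Wpos y).2.le
  have i6 : Integrable (fun y => ε y ^ 6) := by
    have h := Pool.Agent.Helper5.KV.bint (c := fun y => ε y ^ 4) (M := B ^ 2) i0 (ec.pow 4)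
      (fun y => by
        rw [abs_of_nonneg (by positivity)]
        calc ε y ^ 4 = (ε y ^ 2) ^ 2 := by ring
          _ ≤ B ^ 2 := pow_le_pow_left₀ (sq_nonneg _) (hB y) 2)
    refine h.congr (Eventually.of_forall fun y => ?_)
    simp only; ring
  have iw0 : Integrable (fun y => wt K ρ y * ε y ^ 2) := Pool.Agent.Helper5.KV.bint i0 Wc hbw
  have iw6 : Integrable (fun y => wt K ρ y * ε y ^ 6) := Pool.Agent.Helper5.KV.bint i6 Wc hbw
  have iw01 : Integrable (fun y => wt K ρ y * (deriv ε y ^ 2 + ε y ^ 2)) :=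
    Pool.Agent.Helper5.KV.bint (i1.add i0) Wc hbw
  have hQb : ∀ y, Q y ≤ C0 := fun y => by
    refine (hC0' y).trans ?_
    have : Real.exp (-|y|) ≤ 1 := Real.exp_le_one_iff.2 (by simp)
    nlinarith
  have iQ : Integrable (fun y => 5 * Q y ^ 4 * ε y ^ 2) :=
    Pool.Agent.Helper5.KV.bint (c := fun y => 5 * Q y ^ 4) (M := 5 * C0 ^ 4) i0
      (by fun_prop) (fun y => by
        have := (Qpos y).le
        rw [abs_of_nonneg (by positivity)]
        have := pow_le_pow_left₀ this (hQb y) 4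
        linarith)
  have iL : Integrable (fun y => wt K ρ y * (deriv ε y ^ 2 + ε y ^ 2 - 5 * Q y ^ 4 * ε y ^ 2)) :=
    Pool.Agent.Helper5.KV.bint ((i1.add i0).sub iQ) Wc hbw
  -- bounds on v
  have hsρ : Real.sqrt ρ * Real.sqrt ρ = ρ := Real.mul_self_sqrt hρ.le
  have hs0 : 0 ≤ Real.sqrt ρ := Real.sqrt_nonneg _
  have hs1 : Real.sqrt ρ ≤ 1 := by
    exact Real.sqrt_le_iff.2 ⟨zero_le_one, by simpa using hρ1⟩
  have hv2 : ∀ y, |v y| ≤ 2 * CV := fun y => by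
    refine (hvb y).trans ?_
    have : Real.exp (-(|y| / 2)) ≤ 1 := Real.exp_le_one_iff.2 (by have := abs_nonneg y; linarith)
    nlinarith
  have iG : Integrable (fun y => nGG (v y) (ε y) / 3) := by
    have hc : Continuous (fun y => nGG (v y) (ε y) / 3) := by
      unfold nGG; fun_prop
    refine Integrable.mono' (((i0.const_mul ((2 * CV) ^ 4)).add i6).const_mul 60)
      hc.aestronglyMeasurable (Eventually.of_forall fun y => ?_)
    have h := (h2 (v y) (ε y)).1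
    have h4 : v y ^ 4 ≤ (2 * CV) ^ 4 := by
      calc v y ^ 4 = |v y| ^ 4 := by
            rw [← abs_pow, abs_of_nonneg (by positivity)]
        _ ≤ (2 * CV) ^ 4 := pow_le_pow_left₀ (abs_nonneg _) (hv2 y) 4
    have h5 : v y ^ 4 * ε y ^ 2 ≤ (2 * CV) ^ 4 * ε y ^ 2 :=
      mul_le_mul_of_nonneg_right h4 (sq_nonneg _)
    have h6 : 0 ≤ ε y ^ 6 := by positivity
    rw [Real.norm_eq_abs, abs_div, abs_of_pos (by norm_num : (0:ℝ) < 3)]
    simp only [Pi.add_apply]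
    have h7 := abs_nonneg (nGG (v y) (ε y))
    linarith
  have iH : Integrable (fun y => wt K ρ y * (deriv ε y ^ 2 + ε y ^ 2 - nGG (v y) (ε y) / 3)) :=
    Pool.Agent.Helper5.KV.bint ((i1.add i0).sub iG) Wc hbw
  -- v^4 - Q^4
  have hvq : ∀ y, |v y ^ 4 - Q y ^ 4| ≤ C2 * ρ := by
    intro y
    have hq := (Qpos y).le
    have E0 : 0 < Real.exp (-(|y| / 2)) := Real.exp_pos _
    have E1 : Real.exp (-(|y| / 2)) ≤ 1 :=
      Real.exp_le_one_iff.2 (by have := abs_nonneg y; linarith)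
    have E2 : Real.exp (-|y|) ≤ Real.exp (-(|y| / 2)) :=
      Real.exp_le_exp.2 (by have := abs_nonneg y; linarith)
    have E3 : Real.exp (-(|y| / 2)) ^ 3 * Real.exp (|y| / 8) ≤ 1 := by
      rw [← Real.exp_nat_mul, ← Real.exp_add]
      refine Real.exp_le_one_iff.2 ?_
      have := abs_nonneg y
      push_cast
      linarith
    have hsum : |v y| + Q y ≤ C1 * (Real.exp (-(|y| / 2)) + Real.sqrt ρ) := by
      have a1 := hvb y
      have a2 : Q y ≤ C0 * Real.exp (-(|y| / 2)) :=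
        (hC0' y).trans (mul_le_mul_of_nonneg_left E2 hC0p.le)
      have a3 : 0 ≤ C0 * Real.sqrt ρ := by positivity
      rw [hC1]
      linarith
    have hsum0 : 0 ≤ |v y| + Q y := by positivity
    have hcub : (|v y| + Q y) ^ 3 ≤ 4 * C1 ^ 3 * (Real.exp (-(|y| / 2)) ^ 3 + ρ) := by
      have b1 := pow_le_pow_left₀ hsum0 hsum 3
      have b2 := cube_add (Real.exp (-(|y| / 2))) (Real.sqrt ρ) E0.le hs0
      have b3 : Real.sqrt ρ ^ 3 ≤ ρ := by
        calc Real.sqrt ρ ^ 3 = (Real.sqrt ρ * Real.sqrt ρ) * Real.sqrt ρ := by ring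
          _ ≤ ρ * 1 := by rw [hsρ]; exact mul_le_mul_of_nonneg_left hs1 hρ.le
          _ = ρ := mul_one _
      calc (|v y| + Q y) ^ 3 ≤ (C1 * (Real.exp (-(|y| / 2)) + Real.sqrt ρ)) ^ 3 := b1
        _ = C1 ^ 3 * (Real.exp (-(|y| / 2)) + Real.sqrt ρ) ^ 3 := by ring
        _ ≤ C1 ^ 3 * (4 * (Real.exp (-(|y| / 2)) ^ 3 + ρ)) := by
            refine mul_le_mul_of_nonneg_left ?_ (by positivity)
            linarith
        _ = _ := by ring
    have hdiff1 : |v y - Q y| ≤ CV * ρ * Real.exp (|y| / 8) := hvQ y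
    have hdiff2 : |v y - Q y| ≤ 2 * C1 := by
      have c1 : |v y - Q y| ≤ |v y| + Q y := by
        have := abs_sub (v y) (Q y)
        rwa [abs_of_nonneg hq] at this
      refine c1.trans (hsum.trans ?_)
      nlinarith
    calc |v y ^ 4 - Q y ^ 4| ≤ |v y - Q y| * (|v y| + Q y) ^ 3 := pow4_sub _ _ hq
      _ ≤ |v y - Q y| * (4 * C1 ^ 3 * (Real.exp (-(|y| / 2)) ^ 3 + ρ)) :=
          mul_le_mul_of_nonneg_left hcub (abs_nonneg _)
      _ = 4 * C1 ^ 3 * (|v y - Q y| * Real.exp (-(|y| / 2)) ^ 3 + |v y - Q y| * ρ) := by ring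
      _ ≤ 4 * C1 ^ 3 * (CV * ρ + 2 * C1 * ρ) := by
          refine mul_le_mul_of_nonneg_left (add_le_add ?_ ?_) (by positivity)
          · calc |v y - Q y| * Real.exp (-(|y| / 2)) ^ 3
                ≤ CV * ρ * Real.exp (|y| / 8) * Real.exp (-(|y| / 2)) ^ 3 :=
                  mul_le_mul_of_nonneg_right hdiff1 (by positivity)
              _ = CV * ρ * (Real.exp (-(|y| / 2)) ^ 3 * Real.exp (|y| / 8)) := by ring
              _ ≤ CV * ρ * 1 := mul_le_mul_of_nonneg_left E3 (by positivity)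
              _ = CV * ρ := mul_one _
          · exact mul_le_mul_of_nonneg_right hdiff2 hρ.le
      _ = C2 * ρ := by rw [hC2]; ring
  -- pointwise bound
  have hpt : ∀ y, |wt K ρ y * (deriv ε y ^ 2 + ε y ^ 2 - nGG (v y) (ε y) / 3)
      - wt K ρ y * (deriv ε y ^ 2 + ε y ^ 2 - 5 * Q y ^ 4 * ε y ^ 2)| ≤
      1 / 128 * (wt K ρ y * ε y ^ 2) + A * (wt K ρ y * ε y ^ 6) := by
    intro y
    have hw := (Wpos y).1.le
    have k1 := (h2 (v y) (ε y)).2.2.2.2.2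
    have k2 := cube_split |ε y| δ (abs_nonneg _) hδp
    have k3 : |ε y| ^ 2 = ε y ^ 2 := sq_abs _
    have k4 : |ε y| ^ 6 = ε y ^ 6 := by rw [← abs_pow, abs_of_nonneg (by positivity)]
    rw [k3, k4] at k2
    have k5 : |v y| ^ 3 ≤ 8 * CV ^ 3 := by
      have := pow_le_pow_left₀ (abs_nonneg _) (hv2 y) 3
      calc |v y| ^ 3 ≤ (2 * CV) ^ 3 := this
        _ = 8 * CV ^ 3 := by ring
    have k6 : |v y| ^ 3 * |ε y| ^ 3 ≤ 8 * CV ^ 3 * (δ * ε y ^ 2 + (δ ^ 3)⁻¹ * ε y ^ 6) :=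
      mul_le_mul k5 k2 (by positivity) (by positivity)
    have k7 : 160 * CV ^ 3 * δ = 1 / 256 := by
      rw [hδ]; field_simp
    have k8 := hvq y
    have k9 : |(5 * (v y ^ 4 - Q y ^ 4)) * ε y ^ 2| ≤ 1 / 256 * ε y ^ 2 := by
      rw [abs_mul, abs_mul, abs_of_pos (by norm_num : (0:ℝ) < 5), abs_of_nonneg (sq_nonneg (ε y))]
      refine mul_le_mul_of_nonneg_right ?_ (sq_nonneg _)
      linarith
    have k10 : |nGG (v y) (ε y) / 3 - 5 * Q y ^ 4 * ε y ^ 2| ≤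
        1 / 128 * ε y ^ 2 + A * ε y ^ 6 := by
      have e : nGG (v y) (ε y) / 3 - 5 * Q y ^ 4 * ε y ^ 2 =
          (nGG (v y) (ε y) - 15 * v y ^ 4 * ε y ^ 2) / 3
            + (5 * (v y ^ 4 - Q y ^ 4)) * ε y ^ 2 := by ring
      rw [e]
      refine (abs_add_le _ _).trans ?_
      rw [abs_div, abs_of_pos (by norm_num : (0:ℝ) < 3)]
      have l1 : |nGG (v y) (ε y) - 15 * v y ^ 4 * ε y ^ 2| / 3 ≤
          20 * (8 * CV ^ 3 * (δ * ε y ^ 2 + (δ ^ 3)⁻¹ * ε y ^ 6)) + 20 * ε y ^ 6 := by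
        rw [div_le_iff₀ (by norm_num)]
        linarith
      have l2 : 20 * (8 * CV ^ 3 * (δ * ε y ^ 2 + (δ ^ 3)⁻¹ * ε y ^ 6)) + 20 * ε y ^ 6 =
          (160 * CV ^ 3 * δ) * ε y ^ 2 + A * ε y ^ 6 := by rw [hA]; ring
      rw [l2, k7] at l1
      linarith
    calc |wt K ρ y * (deriv ε y ^ 2 + ε y ^ 2 - nGG (v y) (ε y) / 3)
          - wt K ρ y * (deriv ε y ^ 2 + ε y ^ 2 - 5 * Q y ^ 4 * ε y ^ 2)|
        = |wt K ρ y * -(nGG (v y) (ε y) / 3 - 5 * Q y ^ 4 * ε y ^ 2)| := by congr 1; ring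
      _ = wt K ρ y * |nGG (v y) (ε y) / 3 - 5 * Q y ^ 4 * ε y ^ 2| := by
          rw [abs_mul, abs_neg, abs_of_nonneg hw]
      _ ≤ wt K ρ y * (1 / 128 * ε y ^ 2 + A * ε y ^ 6) := mul_le_mul_of_nonneg_left k10 hw
      _ = _ := by ring
  -- integrate
  have hmain : |Hf K ρ v ε - ∫ y, wt K ρ y * (deriv ε y ^ 2 + ε y ^ 2 - 5 * Q y ^ 4 * ε y ^ 2)| ≤
      1 / 128 * (∫ y, wt K ρ y * ε y ^ 2) + A * ∫ y, wt K ρ y * ε y ^ 6 := by
    unfold Hf
    rw [← integral_sub iH iL, ← integral_const_mul, ← integral_const_mul,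
      ← integral_add (iw0.const_mul _) (iw6.const_mul _)]
    exact (abs_integral_le_integral_abs).trans
      (integral_mono (iH.sub iL).abs ((iw0.const_mul _).add (iw6.const_mul _)) hpt)
  have hHn0 : 0 ≤ Hn K ρ ε := integral_nonneg fun y => by
    have := (Wpos y).1.le
    positivity
  have hle0 : (∫ y, wt K ρ y * ε y ^ 2) ≤ Hn K ρ ε := by
    refine integral_mono iw0 iw01 fun y => ?_
    exact mul_le_mul_of_nonneg_left (by have := sq_nonneg (deriv ε y); simp only; linarith) (Wpos y).1.le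
  have hM0 : 0 ≤ ∫ y, ε y ^ 2 := integral_nonneg fun y => sq_nonneg _
  have hM1 : (∫ y, ε y ^ 2) ≤ 1 := hM.trans (min_le_left _ _)
  have hM2 : (∫ y, ε y ^ 2) ≤ 1 / (256 * (8 * A)) := hM.trans (min_le_right _ _)
  have hle6 : A * (∫ y, wt K ρ y * ε y ^ 6) ≤ 1 / 256 * Hn K ρ ε := by
    have q1 : (∫ y, ε y ^ 2) ^ 2 ≤ 1 / (256 * (8 * A)) := by
      calc (∫ y, ε y ^ 2) ^ 2 = (∫ y, ε y ^ 2) * (∫ y, ε y ^ 2) := by ring
        _ ≤ (∫ y, ε y ^ 2) * 1 := mul_le_mul_of_nonneg_left hM1 hM0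
        _ = ∫ y, ε y ^ 2 := mul_one _
        _ ≤ _ := hM2
    calc A * (∫ y, wt K ρ y * ε y ^ 6)
        ≤ A * (8 * (∫ y, ε y ^ 2) ^ 2 * Hn K ρ ε) := mul_le_mul_of_nonneg_left hgn hAp.le
      _ = (8 * A * (∫ y, ε y ^ 2) ^ 2) * Hn K ρ ε := by ring
      _ ≤ (8 * A * (1 / (256 * (8 * A)))) * Hn K ρ ε :=
          mul_le_mul_of_nonneg_right (mul_le_mul_of_nonneg_left q1 (by positivity)) hHn0
      _ = 1 / 256 * Hn K ρ ε := by
          congr 1
          field_simp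
  have hLle : (∫ y, wt K ρ y * (deriv ε y ^ 2 + ε y ^ 2 - 5 * Q y ^ 4 * ε y ^ 2)) ≤ Hn K ρ ε := by
    refine integral_mono iL iw01 fun y => ?_
    refine mul_le_mul_of_nonneg_left ?_ (Wpos y).1.le
    have : 0 ≤ 5 * Q y ^ 4 * ε y ^ 2 := by have := (Qpos y).le; positivity
    simp only
    linarith
  have hcoer' : Hn K ρ ε ≤
      32 * ∫ y, wt K ρ y * (deriv ε y ^ 2 + ε y ^ 2 - 5 * Q y ^ 4 * ε y ^ 2) := hcoer
  have := abs_le.1 hmain
  constructor
  · linarith [this.1]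
  · linarith [this.2]

end Pool.Agent.Helper23.KV
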